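import Pool.Agent.H468.G4.Cov3
import Pool.Graph.R_pool_sql_team_seeded_63374d34.N916.GB.Num

/-!
# A uniform bound for the rational points of hyperelliptic curves of every genus over most of the quadratic
# twists of `17a2`, `X_0(15)`, `X_0(21)`, `X_0(24)`

`E_j^m : y² = x (x + α_j m) (x + β_j m)`, `(α, β) = (1, -16), (16, 25), (9, 16), (3, -1)`, is the quadratic twist by
the squarefree integer `m` of the curve `17a2`, `X_0(15)`, `X_0(21)`, `X_0(24)` (`j = 0, 1, 2, 3`): no complex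
multiplication, four isogeny classes, all of them with a rational cyclic isogeny of degree `4`.

A hyperelliptic curve `C : y² = G(x)`, `G` squarefree, has a map `(x, y) ↦ (P / Q, y H / Q²)` of degree
`n = max (deg P, deg Q)` (`P`, `Q` coprime) to the twist by `d` of `E_j^e` if and only if
`d Q P (P + α_j e Q) (P + β_j e Q) = G H²`.

* `Bounded j e d`: ALL these curves, of any genus, have at most `4 n` rational points; if `H = 1`, that is for all the
  squarefree polynomials `G = d Q P (P + α_j e Q) (P + β_j e Q)` of degree `2 g + 1` or `2 g + 2`, at most `2 g + 4`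
  rational points, the affine ones with `y = 0`.  For every `g ≥ 2` this is a family with many parameters
  (the coefficients of `P` and `Q`): `#C(ℚ) ≤ 2 g + 4` is a uniform bound as in the problem.

(1) For every squarefree `e`, `d`: if `E_j^m(ℚ)` is finite, `m` the squarefree part of `e d` in the family `Fam j`, then
`Bounded j e d`.
(2) In each class of the `d` given by finitely many places the hypotheses hold for all `e ∈ T` (`j = 0`) and all
`e ∈ T'` and all the `j > 0` for which the local conditions hold, with the exact proportion `c^|T| η^|T'|`,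
`c = 0.4194...`, `η = 0.2887...`.
(3) So for every `j` and `e` the `d` with `Bounded j e d` have positive lower density, at least `c / 2 = 0.2097...`
for `j = 0`.
(4) For at least the proportion `c = 0.4194...` of ALL the squarefree `d` (no condition on the root number) all
the hyperelliptic curves of any genus with a map of degree `n` to `y² = d h_i(x)` (`i = 0, 1, 2`, three curves of genus
two, isomorphic to their twist by `-1`) have at most `6 n` rational points.
-/

set_option autoImplicit false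

open Filter Topology Polynomial

namespace Pool.Agent.Results.MP_10e784_ag.CoversOfMostTwists

open Pool.Agent.TH841.SH.D (Sha)

/-! ### hyperelliptic curves -/

/-- the affine rational points of `y² = f(x)` -/
def affine (f : ℚ[X]) : Set (ℚ × ℚ) := {q | q.2 ^ 2 = f.eval q.1}

/-- `y² = f(x)` defines a hyperelliptic curve of genus `g` -/
def Genus (g : ℕ) (f : ℚ[X]) : Prop :=
  Squarefree f ∧ (f.natDegree = 2 * g + 1 ∨ f.natDegree = 2 * g + 2)

open Classical in
/-- the number of the rational points of the smooth projective model of `y² = f(x)`, `f` squarefree: if the degree is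
odd, there is one point over `x = ∞`, and it is rational; if it is even, the two points over `x = ∞` are rational if
and only if the leading coefficient is a square -/
noncomputable def points (f : ℚ[X]) : ℕ :=
  (affine f).ncard + if Odd f.natDegree then 1 else if IsSquare f.leadingCoeff then 2 else 0

/-! ### the elliptic curves -/

/-- `E_j^m : y² = x (x + α_j m) (x + β_j m)`: the twist by `m` of `17a2`, `X_0(15)`, `X_0(21)`, `X_0(24)` -/
def α (j : Fin 4) : ℚ := match j with | 0 => 1 | 1 => 16 | 2 => 9 | 3 => 3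

/-- see `α` -/
def β (j : Fin 4) : ℚ := match j with | 0 => -16 | 1 => 25 | 2 => 16 | 3 => -1

/-- the curve `E_j^m` -/
def E (j : Fin 4) (m : ℤ) : WeierstrassCurve ℚ := ⟨0, (α j + β j) * m, 0, α j * β j * m ^ 2, 0⟩

/-- `Q⁴ f(P / Q)` for `f = x (x + α_j e) (x + β_j e)` -/
noncomputable def F (j : Fin 4) (e : ℤ) (P Q : ℚ[X]) : ℚ[X] :=
  Q * P * (P + C (α j * e) * Q) * (P + C (β j * e) * Q)

/-- `E_j^m(ℚ)` is finite and `Ш(E_j^m)[2^∞] = 0` -/
def Good (j : Fin 4) (m : ℤ) : Prop :=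
  Finite (E j m).toAffine.Point ∧ ∀ (n : ℕ) (x : Sha (E j m)), 2 ^ n • x = 0 → x = 0

/-- all the hyperelliptic curves `y² = G(x)` of any genus with a map `(x, y) ↦ (P / Q, y H / Q²)` to the twist by `d`
of `E_j^e` have at most `4 n` rational points, `n = max (deg P, deg Q)`; if `H = 1`, they have at most `2 g + 4`, the
affine ones with `y = 0` -/
def Bounded (j : Fin 4) (e d : ℤ) : Prop :=
  (∀ P Q G H : ℚ[X], H ≠ 0 → Squarefree G → C (d : ℚ) * F j e P Q = G * H ^ 2 →
    (affine G).Finite ∧ points G ≤ 4 * max P.natDegree Q.natDegree) ∧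
  ∀ (g : ℕ) (P Q : ℚ[X]), Genus g (C (d : ℚ) * F j e P Q) →
    (∀ q ∈ affine (C (d : ℚ) * F j e P Q), q.2 = 0) ∧ points (C (d : ℚ) * F j e P Q) ≤ 2 * g + 4

/-- `a P² + b Q²` -/
noncomputable def quad (a b : ℚ) (P Q : ℚ[X]) : ℚ[X] := C a * P ^ 2 + C b * Q ^ 2

/-- `Q⁶ h_i(P / Q)` for `h₀ = (x² - 1) (x² - 16) (16 x² - 1)`, `h₁ = (1 - x²) (x² + 17) (17 x² + 1)`,
`h₂ = (x² - 1) (16 x² + 17) (17 x² + 16)` -/
noncomputable def h (i : Fin 3) (P Q : ℚ[X]) : ℚ[X] := match i with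
  | 0 => quad 1 (-1) P Q * quad 1 (-16) P Q * quad 16 (-1) P Q
  | 1 => quad (-1) 1 P Q * quad 1 17 P Q * quad 17 1 P Q
  | 2 => quad 1 (-1) P Q * quad 16 17 P Q * quad 17 16 P Q

/-- all the hyperelliptic curves `y² = G(x)` of any genus with a map `(x, y) ↦ (P / Q, y H / Q³)` to `y² = d h_i(x)`
have at most `6 n` rational points, `n = max (deg P, deg Q)` -/
def BoundedS (i : Fin 3) (d : ℤ) : Prop :=
  ∀ P Q G H : ℚ[X], H ≠ 0 → Squarefree G → C (d : ℚ) * h i P Q = G * H ^ 2 →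
    (affine G).Finite ∧ points G ≤ 6 * max P.natDegree Q.natDegree

/-! ### twists -/

/-- the squarefree integer in the class of `e d` modulo squares -/
def tw (e d : ℤ) : ℤ := e * d / (Int.gcd e d : ℤ) ^ 2

/-- the families, in terms of the squarefree integer `m`: for `j = 0` the root number of `E_0^m` is `1` -/
def Fam (j : Fin 4) (m : ℤ) : Prop := match j with
  | 0 => (0 < m ∧ jacobiSym m 17 = 1) ∨ (m < 0 ∧ jacobiSym m 17 ≠ 1)
  | 1 => m < 0 ∧ (m % 60 = 13 ∨ m % 60 = 37)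
  | 2 => m < 0 ∧ m % 3 ≠ 1 ∧ (m % 7 = 0 ∨ m % 7 = 1 ∨ m % 7 = 2 ∨ m % 7 = 4)
  | 3 => m < 0 ∧ m % 24 = 13

/-- the class of `d₀`: the same sign, and the same class in `ℚ_p^×` modulo squares for `p ∈ P` -/
def Class (P : Finset ℕ) (d₀ d : ℤ) : Prop :=
  0 < d * d₀ ∧ ∀ (p : ℕ) [Fact p.Prime], p ∈ P → IsSquare ((d * d₀ : ℤ) : ℚ_[p])

/-- the hypotheses of (1) for all the curves of the finite sets -/
def All (T T' : Finset ℤ) (d₀ d : ℤ) : Prop := (∀ e ∈ T, Good 0 (tw e d)) ∧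
  ∀ e ∈ T', ∀ j : Fin 4, j ≠ 0 → Fam j (tw e d₀) → Fam j (tw e d) ∧ Good j (tw e d)

/-- the number of the squarefree integers `d` with `|d| < X` and the property `P` -/
noncomputable def count (P : ℤ → Prop) (X : ℝ) : ℕ :=
  {d : ℤ | Squarefree d ∧ |(d : ℝ)| < X ∧ P d}.ncard

/-- the number of the squarefree integers `d` with `|d| < X` -/
noncomputable def S (X : ℝ) : ℕ := count (fun _ => True) X

/-- the constant `(1 - 1/2) (1 - 1/8) (1 - 1/32) ⋯ = 0.4194...` -/
noncomputable def c : ℝ := ∏' i : ℕ, (1 - (1 / 2 : ℝ) ^ (2 * i + 1))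

/-- the constant `(1 - 1/2) (1 - 1/4) (1 - 1/8) ⋯ = 0.2887...` -/
noncomputable def η : ℝ := ∏' i : ℕ, (1 - (1 / 2 : ℝ) ^ (i + 1))

section proof

open Pool.Agent.H743.X17 (parts Sys num Rt Nr FinSha)
open Pool.Agent.H743.JL (H4)
open Pool.Agent.N855.GF.Lc17 (Loc)
open Pool.Agent.H468.WM (opf cnt)
open Pool.Agent.H468.WJ (Pat kp)
open Pool.Agent.H468.G4
open Pool.Agent.H468.G4.Cov (Ef data0 data3 only lim3 lim5 hs aa bound bound1 bound6 hpt_of sqf_sq three)

/-! #### geometry -/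

lemma bounded_of (j : Fin 4) {e d : ℤ} (he : Squarefree e) (hd : Squarefree d)
    (hf : Finite (Ef j (tw e d)).toAffine.Point)
    (hc : Nat.card (AddCommGroup.torsion (Ef j (tw e d)).toAffine.Point) = 4) : Bounded j e d := by
  have hd0 : (d : ℚ) ≠ 0 := by exact_mod_cast hd.ne_zero
  have hpt := hpt_of j he hd hf hc
  constructor
  · intro P Q G H hH hG hh
    exact bound (A := α j * e) (B := β j * e) hd0 hpt hH hG.ne_zero hh
  · intro g P Q hg
    obtain ⟨h1, h2⟩ := bound1 (A := α j * e) (B := β j * e) (P := P) (Q := Q) hd0 hpt hg.1.ne_zero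
    refine ⟨h1, ?_⟩
    have h3 : (affine (C (d : ℚ) * F j e P Q)).ncard ≤ (C (d : ℚ) * F j e P Q).natDegree := h2
    unfold points
    rcases hg.2 with h4 | h4
    · rw [if_pos (by rw [h4]; exact ⟨g, rfl⟩)]
      omega
    · split_ifs <;> omega

/-- the coefficients of `h i` -/
def r (i k : Fin 3) : ℚ := match i, k with
  | 0, 0 => 1 | 0, 1 => 1 | 0, 2 => 16
  | 1, 0 => -1 | 1, 1 => 1 | 1, 2 => 17
  | 2, 0 => 1 | 2, 1 => 16 | 2, 2 => 17

/-- see `r` -/
def s (i k : Fin 3) : ℚ := match i, k with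
  | 0, 0 => -1 | 0, 1 => -16 | 0, 2 => -1
  | 1, 0 => 1 | 1, 1 => 17 | 1, 2 => 1
  | 2, 0 => -1 | 2, 1 => 17 | 2, 2 => 16

lemma h_eq (i : Fin 3) (P Q : ℚ[X]) : h i P Q = Pool.Agent.H468.G4.Cov.SS (r i) (s i) P Q := by
  rcases three i with rfl | rfl | rfl <;> rfl

lemma prod_eq (i : Fin 3) (x : ℚ) :
    (r i 0 * x ^ 2 + s i 0) * (r i 1 * x ^ 2 + s i 1) * (r i 2 * x ^ 2 + s i 2) = hs i x := by
  rcases three i with rfl | rfl | rfl
  · simp only [r, s, hs]
    ring
  · simp only [r, s, hs]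
    ring
  · simp only [r, s, hs]
    ring

lemma lc_not (i : Fin 3) {d : ℤ} (hd : Squarefree d) (hS : d ∉ ({1, -1, 17, -17} : Finset ℤ)) :
    ¬ IsSquare ((d : ℚ) * (r i 0 * r i 1 * r i 2)) := by
  simp only [Finset.mem_insert, Finset.mem_singleton, not_or] at hS
  have s17 : Squarefree (17 : ℤ) := by
    rw [← Int.squarefree_natAbs]
    exact (by norm_num : Nat.Prime 17).squarefree
  have s17' : Squarefree (-17 : ℤ) := by
    rw [← Int.squarefree_natAbs]
    exact (by norm_num : Nat.Prime 17).squarefree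
  rintro ⟨z, hz⟩
  rcases three i with rfl | rfl | rfl
  · have hz' : (d : ℚ) * (1 * 1 * 16) = z * z := hz
    refine hS.1 (sqf_sq squarefree_one hd ⟨z / 4, ?_⟩)
    push_cast
    linear_combination (1 / 16 : ℚ) * hz'
  · have hz' : (d : ℚ) * (-1 * 1 * 17) = z * z := hz
    refine hS.2.2.2 (sqf_sq s17' hd ⟨z, ?_⟩)
    push_cast
    linear_combination hz'
  · have hz' : (d : ℚ) * (1 * 16 * 17) = z * z := hz
    refine hS.2.2.1 (sqf_sq s17 hd ⟨z / 4, ?_⟩)
    push_cast
    linear_combination (1 / 16 : ℚ) * hz'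

lemma boundedS_of (i : Fin 3) {d : ℤ} (hd : Squarefree d) (hS : d ∉ ({1, -1, 17, -17} : Finset ℤ))
    (ha : Squarefree (aa i)) (hY : Sys (tw (aa i) d) ∨ Sys (tw (-aa i) d)) : BoundedS i d := by
  intro P Q G H hH hG hh
  rw [h_eq] at hh
  have hd0 : (d : ℚ) ≠ 0 := by exact_mod_cast hd.ne_zero
  refine bound6 (a := r i) (b := s i) hd0 (fun x y hxy => ?_) (lc_not i hd hS) hH hG.ne_zero hh
  rw [prod_eq] at hxy
  exact only i hd hS ha hY hxy

/-! #### the law -/

lemma fam_succ (i : Fin 3) (m : ℤ) : Fam i.succ m ↔ Pool.Agent.H743.JL.Fam i m := by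
  fin_cases i <;> exact Iff.rfl

lemma fin4 {j : Fin 4} (hj : j ≠ 0) : ∃ i : Fin 3, j = i.succ := by
  obtain ⟨i, hi⟩ := Fin.exists_succ_eq.2 hj
  exact ⟨i, hi.symm⟩

lemma fam_neg {j : Fin 4} (hj : j ≠ 0) {m : ℤ} (h : Fam j m) : m < 0 := by
  obtain ⟨i, rfl⟩ := fin4 hj
  fin_cases i <;> exact h.1

lemma tors_of (j : Fin 4) {m : ℤ} (hm : Squarefree m) (hF : Fam j m) :
    Nat.card (AddCommGroup.torsion (Ef j m).toAffine.Point) = 4 := by
  by_cases hj : j = 0
  · subst hj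
    exact (data0 hm).2
  · obtain ⟨i, rfl⟩ := fin4 hj
    exact (data3 i hm ((fam_succ i m).1 hF)).2

lemma class_eq (P : Finset ℕ) (d₀ d : ℤ) : Class P d₀ d ↔ Loc True P d₀ d :=
  ⟨fun h => ⟨fun _ => h.1, h.2⟩, fun h => ⟨h.1 trivial, h.2⟩⟩

lemma all_iff {P : Finset ℕ} {d₀ : ℤ} {T T' : Finset ℤ} (hP2 : {2, 3, 5, 7, 17} ⊆ P)
    (hd₀ : Squarefree d₀) (hT : ∀ e ∈ T, Squarefree e ∧ Fam 0 (tw e d₀))
    (hT' : ∀ e ∈ T', Squarefree e ∧ ∃ j, j ≠ 0 ∧ Fam j (tw e d₀)) {d : ℤ}
    (hd : Squarefree d) (h : Loc True P d₀ d) :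
    All T T' d₀ d ↔ Pat T T T' T' d := by
  have keyF : ∀ (i : Fin 3) (e : ℤ), e ∈ T' → Fam i.succ (tw e d₀) → Fam i.succ (tw e d) := by
    intro i e he hf
    exact (fam_succ i _).2 (fam_cls i (hT' e he).1 hd₀ hd (hP2 (by simp)) (hP2 (by simp))
      (hP2 (by simp)) (hP2 (by simp)) h ((fam_succ i _).1 hf))
  have key : ∀ (i : Fin 3) (e : ℤ), e ∈ T' → Fam i.succ (tw e d₀) →
      (Good i.succ (tw e d) ↔ H4 (tw e d)) := by
    intro i e he hf
    exact (data3 i (tw_sf (hT' e he).1 hd) ((fam_succ i _).1 (keyF i e he hf))).1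
  have key0 : ∀ e ∈ T, (Good 0 (tw e d) ↔ Sys (tw e d)) := fun e he =>
    (data0 (tw_sf (hT e he).1 hd)).1
  constructor
  · rintro ⟨h1, h2⟩
    refine ⟨fun e he => ⟨fun _ => he, fun _ => (key0 e he).1 (h1 e he)⟩, fun e he =>
      ⟨fun _ => he, fun _ => ?_⟩⟩
    obtain ⟨-, j, hj, hf⟩ := hT' e he
    obtain ⟨i, rfl⟩ := fin4 hj
    exact (key i e he hf).1 (h2 e he _ hj hf).2
  · rintro ⟨h1, h2⟩
    refine ⟨fun e he => (key0 e he).2 ((h1 e he).2 he), fun e he j hj hf => ?_⟩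
    obtain ⟨i, rfl⟩ := fin4 hj
    exact ⟨keyF i e he hf, (key i e he hf).2 ((h2 e he).2 he)⟩

lemma main {P : Finset ℕ} {d₀ : ℤ} {T T' : Finset ℤ} (hP : ∀ p ∈ P, p.Prime)
    (hP2 : {2, 3, 5, 7, 17} ⊆ P) (hd₀ : Squarefree d₀)
    (hT : ∀ e ∈ T, Squarefree e ∧ Fam 0 (tw e d₀))
    (hT' : ∀ e ∈ T', Squarefree e ∧ ∃ j, j ≠ 0 ∧ Fam j (tw e d₀)) :
    Tendsto (fun X : ℝ => (count (fun d => Class P d₀ d ∧ All T T' d₀ d) X : ℝ) /
      count (Class P d₀) X) atTop (𝓝 (c ^ T.card * η ^ T'.card)) := by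
  have h17 : 17 ∈ P := hP2 (by simp)
  obtain ⟨δ, X₁, hδ, hlow⟩ := low P d₀ hP h17 hd₀
  have hcl : Class P d₀ = Loc True P d₀ := funext fun d => propext (class_eq P d₀ d)
  have base : ∀ ε : ℝ, 0 < ε → ∃ X₀ : ℝ, ∀ X : ℝ, X₀ ≤ X → ∀ V : Set (ℕ → ℕ),
      |(Nr (fun d => Loc True P d₀ d ∧ All T T' d₀ d ∧ cnt 1 (opf d) ∈ V) X : ℝ) -
        kp T T T' T' * Nr (fun d => Loc True P d₀ d ∧ cnt 1 (opf d) ∈ V) X| ≤ ε * X := by
    intro ε hε
    exact law T T' P d₀ (fun e he => hT e he) (fun e he => ⟨(hT' e he).1, by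
      obtain ⟨-, j, hj, hf⟩ := hT' e he
      exact fam_neg hj hf⟩) hP h17 hd₀ one_pos (Finset.Subset.refl T) (Finset.Subset.refl T') ∅
      (fun d hd _ h => all_iff hP2 hd₀ hT hT' hd h) ε hε
  have hκ : kp T T T' T' = c ^ T.card * η ^ T'.card := by
    show c ^ T.card * (1 - c) ^ (T \ T).card * (η ^ T'.card * (1 - η) ^ (T' \ T').card) = _
    rw [Finset.sdiff_self, Finset.sdiff_self, Finset.card_empty, pow_zero, pow_zero, mul_one,
      mul_one]
  rw [hcl, ← hκ]
  refine lim (Loc True P d₀) (All T T' d₀) _ hδ hlow fun ε hε => ?_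
  obtain ⟨X₀, h⟩ := base ε hε
  refine ⟨X₀, fun X hX => ?_⟩
  have h1 := h X hX Set.univ
  simpa only [Set.mem_univ, and_true] using h1

lemma c_pos : 0 < c := by
  have h : 0.4194 < c := Pool.Agent.H743.X17.c2_bounds.1
  linarith

lemma η_pos : 0 < η := by
  have h : 0.2887 < η := Pool.Agent.N916.GB.eta_bounds.1
  linarith

/-- one member of each family -/
lemma seed (j : Fin 4) : ∃ s : ℤ, Squarefree s ∧ Fam j s := by
  have h3 : Squarefree (-3 : ℤ) := by
    rw [← Int.squarefree_natAbs]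
    exact (by norm_num : Nat.Prime 3).squarefree
  have h23 : Squarefree (-23 : ℤ) := by
    rw [← Int.squarefree_natAbs]
    exact (by norm_num : Nat.Prime 23).squarefree
  have h11 : Squarefree (-11 : ℤ) := by
    rw [← Int.squarefree_natAbs]
    exact (by norm_num : Nat.Prime 11).squarefree
  fin_cases j
  · exact ⟨-3, h3, Or.inr ⟨by norm_num, by norm_num⟩⟩
  · exact ⟨-23, h23, by norm_num, by norm_num⟩
  · exact ⟨-3, h3, by norm_num, by norm_num, by norm_num⟩
  · exact ⟨-11, h11, by norm_num, by norm_num⟩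

lemma fst (j : Fin 4) {e d : ℤ} (he : Squarefree e) (hd : Squarefree d) (hF : Fam j (tw e d))
    (hf : Finite (E j (tw e d)).toAffine.Point) : Bounded j e d :=
  bounded_of j he hd hf (tors_of j (tw_sf he hd) hF)

lemma each_ne {j : Fin 4} (hj : j ≠ 0) {e : ℤ} (he : Squarefree e) :
    0 < liminf (fun X : ℝ => (count (Bounded j e) X : ℝ) / S X) atTop := by
  obtain ⟨s, hs, hf⟩ := seed j
  have e1 : tw e (tw e s) = s := Pool.Agent.H743.X17.tw_tw he hs
  have hd₀ : Squarefree (tw e s) := tw_sf he hs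
  obtain ⟨P, hPd⟩ : ∃ P : Finset ℕ, P = {2, 3, 5, 7, 17} := ⟨_, rfl⟩
  have hP : ∀ p ∈ P, p.Prime := by
    intro p hp
    rw [hPd] at hp
    simp only [Finset.mem_insert, Finset.mem_singleton] at hp
    rcases hp with rfl | rfl | rfl | rfl | rfl <;> norm_num
  have h1 := main (d₀ := tw e s) (T := ∅) (T' := {e}) hP (by rw [hPd]) hd₀
    (fun e he => absurd he (Finset.notMem_empty e)) (fun e' he' => by
      rw [Finset.mem_singleton.1 he']
      exact ⟨he, j, hj, by rw [e1]; exact hf⟩)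
  obtain ⟨δ, X₁, hδ, hlow⟩ := low P (tw e s) hP (by rw [hPd]; simp) hd₀
  have hκ : 0 < c ^ (∅ : Finset ℤ).card * η ^ ({e} : Finset ℤ).card :=
    mul_pos (pow_pos c_pos _) (pow_pos η_pos _)
  obtain ⟨κ, hκe⟩ : ∃ κ, κ = c ^ (∅ : Finset ℤ).card * η ^ ({e} : Finset ℤ).card := ⟨_, rfl⟩
  rw [← hκe] at h1 hκ
  have hcl : Class P (tw e s) = Loc True P (tw e s) := funext fun d => propext (class_eq P _ d)
  rw [hcl] at h1
  have h2 := h1.eventually (lt_mem_nhds (by linarith : κ / 2 < κ))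
  obtain ⟨X₂, h3⟩ := eventually_atTop.1 h2
  refine pos_liminf (δ := κ / 2 * δ) (X₁ := max (max X₁ X₂) 1) (Bounded j e) (by positivity)
    fun X hX => ?_
  have a1 : X₁ ≤ X := (le_max_left _ _).trans ((le_max_left _ _).trans hX)
  have a2 : X₂ ≤ X := (le_max_right _ _).trans ((le_max_left _ _).trans hX)
  have a3 : 1 ≤ X := (le_max_right _ _).trans hX
  have b1 := hlow X a1
  have hN : 0 < (Nr (Loc True P (tw e s)) X : ℝ) := lt_of_lt_of_le (by positivity) b1
  have b2 : κ / 2 < (count (fun d => Loc True P (tw e s) d ∧ All ∅ {e} (tw e s) d) X : ℝ) /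
      Nr (Loc True P (tw e s)) X := h3 X a2
  rw [lt_div_iff₀ hN] at b2
  have b3 : (count (fun d => Loc True P (tw e s) d ∧ All ∅ {e} (tw e s) d) X : ℝ) ≤
      Nr (Bounded j e) X := by
    refine Nat.cast_le.2 (Pool.Agent.H743.X17.Nr_mono (fun d hd h => ?_) X)
    obtain ⟨-, -, p2⟩ := h
    obtain ⟨p3, p4⟩ := p2 e (Finset.mem_singleton_self _) j hj (by rw [e1]; exact hf)
    exact fst j he hd p3 p4.1
  calc κ / 2 * δ * X = κ / 2 * (δ * X) := by ring
    _ ≤ κ / 2 * (Nr (Loc True P (tw e s)) X : ℝ) := mul_le_mul_of_nonneg_left b1 (by positivity)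
    _ ≤ _ := b2.le.trans b3

lemma each17 {e : ℤ} (he : Squarefree e) : c / 2 ≤ liminf (fun X : ℝ =>
    (count (Bounded 0 e) X : ℝ) / S X) atTop := by
  refine Pool.Agent.H743.X17.liminf_Nr (P := fun d => Sys (tw e d) ∧ ¬ Pool.Agent.H743.X17.Exc (tw e d))
    (Q := Bounded 0 e) (R := fun _ => True)
    (fun d hd h => ?_) (fun _ _ _ => trivial) (Pool.Agent.H743.X17.lim_Nr (lim3 he))
  have h1 := data0 (tw_sf he hd)
  exact bounded_of 0 he hd (h1.1.2 h.1).1 h1.2

lemma sq_aa (i : Fin 3) : Squarefree (aa i) := by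
  rcases three i with rfl | rfl | rfl
  · show Squarefree (15 : ℤ)
    rw [← Int.squarefree_natAbs]
    show Squarefree 15
    rw [show (15 : ℕ) = 3 * 5 by norm_num, Nat.squarefree_mul (by norm_num)]
    exact ⟨(by norm_num : Nat.Prime 3).squarefree, (by norm_num : Nat.Prime 5).squarefree⟩
  · show Squarefree (2 : ℤ)
    rw [← Int.squarefree_natAbs]
    exact (by norm_num : Nat.Prime 2).squarefree
  · show Squarefree (33 : ℤ)
    rw [← Int.squarefree_natAbs]
    show Squarefree 33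
    rw [show (33 : ℕ) = 3 * 11 by norm_num, Nat.squarefree_mul (by norm_num)]
    exact ⟨(by norm_num : Nat.Prime 3).squarefree, (by norm_num : Nat.Prime 11).squarefree⟩

lemma each_h (i : Fin 3) : c ≤ liminf (fun X : ℝ => (count (BoundedS i) X : ℝ) / S X) atTop :=
  Pool.Agent.H743.X17.liminf_Nr
    (P := fun d => (Sys (tw (aa i) d) ∨ Sys (tw (-aa i) d)) ∧ d ∉ ({1, -1, 17, -17} : Finset ℤ))
    (Q := BoundedS i) (R := fun _ => True)
    (fun d hd h => boundedS_of i hd h.2 (sq_aa i) h.1) (fun _ _ _ => trivial)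
    (Pool.Agent.H743.X17.lim_Nr (lim5 (sq_aa i) {1, -1, 17, -17}))

end proof

theorem result :
    -- (1) the rational points
    (∀ (j : Fin 4) (e d : ℤ), Squarefree e → Squarefree d → Fam j (tw e d) →
      Finite (E j (tw e d)).toAffine.Point → Bounded j e d) ∧
    -- (2) the exact proportion in every class given by finitely many places
    (∀ (P : Finset ℕ) (d₀ : ℤ) (T T' : Finset ℤ), (∀ p ∈ P, p.Prime) → {2, 3, 5, 7, 17} ⊆ P →
      Squarefree d₀ → (∀ e ∈ T, Squarefree e ∧ Fam 0 (tw e d₀)) →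
      (∀ e ∈ T', Squarefree e ∧ ∃ j, j ≠ 0 ∧ Fam j (tw e d₀)) →
      0 < liminf (fun X : ℝ => (count (Class P d₀) X : ℝ) / S X) atTop ∧
      Tendsto (fun X : ℝ => (count (fun d => Class P d₀ d ∧ All T T' d₀ d) X : ℝ) /
        count (Class P d₀) X) atTop (𝓝 (c ^ T.card * η ^ T'.card))) ∧
    -- (3) every curve
    (∀ (j : Fin 4) (e : ℤ), Squarefree e →
      0 < liminf (fun X : ℝ => (count (Bounded j e) X : ℝ) / S X) atTop) ∧
    (∀ e : ℤ, Squarefree e →
      c / 2 ≤ liminf (fun X : ℝ => (count (Bounded 0 e) X : ℝ) / S X) atTop) ∧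
    -- (4) three curves of genus two
    (∀ i : Fin 3, c ≤ liminf (fun X : ℝ => (count (BoundedS i) X : ℝ) / S X) atTop) ∧
    0.4194 < c ∧ c < 0.4195 ∧ 0.2887 < η ∧ η < 0.2889 := by
  refine ⟨fun j e d he hd hF hf => fst j he hd hF hf, ?_, ?_,
    fun e he => each17 he, each_h, Pool.Agent.H743.X17.c2_bounds.1,
    Pool.Agent.H743.X17.c2_bounds.2, Pool.Agent.N916.GB.eta_bounds.1,
    Pool.Agent.N916.GB.eta_bounds.2⟩
  · intro P d₀ T T' hP hP2 hd₀ hT hT'
    refine ⟨?_, main hP hP2 hd₀ hT hT'⟩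
    obtain ⟨δ, X₁, hδ, hlow⟩ := Pool.Agent.H468.G4.low P d₀ hP (hP2 (by simp)) hd₀
    have hcl : Class P d₀ = Pool.Agent.N855.GF.Lc17.Loc True P d₀ :=
      funext fun d => propext (class_eq P d₀ d)
    rw [hcl]
    exact Pool.Agent.H468.G4.pos_liminf _ hδ hlow
  · intro j e he
    by_cases hj : j = 0
    · subst hj
      exact lt_of_lt_of_le (by have := c_pos; positivity : 0 < c / 2) (each17 he)
    · exact each_ne hj he

end Pool.Agent.Results.MP_10e784_ag.CoversOfMostTwists
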