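import Mathlib
import Pool.Agent.H861.KF.U

/-!
# Uniformity for families: Kummer coverings of plane curves over `k(t₁, …, t_r)`

The uniformity conjecture (Caporaso, Harris, Mazur) asks for a bound `B_g` for the number of rational
points of all curves of genus `g` over `ℚ`. If it holds, then every family of curves of genus `g` over a
rational variety has at most `B_g` rational sections (at least if it is smooth generically), i.e. its
generic member, a curve over the field `K = ℚ(t₁, …, t_r)`, has at most `B_g` points over `K`. Sections of
families are also the source of the known lower bounds for `B_g`.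

We prove this unconditionally, with a bound that is even independent of the genus, for the curves

`F (x ^ m, y ^ n) = 0`,

where `F` is any irreducible polynomial in two variables over `K = k(t₁, …, t_r)` of degree at most `D` with
at least three monomials (there is no condition for the size of its coefficients), `k` is any field of
characteristic zero, `r` is arbitrary, and the greatest common divisor of `m` and `n` is
at least `(((D + 1) (D + 2) / 2)!) ^ 2`. One of the following holds.

* The curve is constant up to a twist: for some `x₀, y₀ ∈ K \ {0}` the substitution `x ↦ x₀ x`,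
  `y ↦ y₀ y` transforms it into a curve `F₀ (x ^ m, y ^ n) = 0` which is defined over `k`, and all points
  over `K` of the latter curve are points over `k`.
* There are at most `N = (2 ^ ((D + 1) (D + 2) / 2) + 2) D ^ 2` different values of `(x ^ m, y ^ n)` at the points
  over `K`, hence at most `N #μ_m(k) #μ_n(k)` points over `K`. For `k = ℚ` this is at most `4 N`.

So `#C(K) ≤ max (4 N, #C₀(ℚ))` for `K = ℚ(t₁, …, t_r)`, where in the isotrivial case
`C₀` is a curve of the same form over `ℚ`: only constant curves could have many points over `K`.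
For instance the twisted Fermat curves `a x ^ n + b y ^ n = c` with `n ≥ 36` over `ℚ(t₁, …, t_r)`
have at most `40` points, for all nonzero `a`, `b`, `c`, if they are not isomorphic to twists
`a₀ x ^ n + b₀ y ^ n = c₀` over `ℚ` by multiplication of `x` and `y` with elements of `K`.

Proof. Let `K = k(t)`. The determinants of the matrices of the monomials of degree at most `D` at the points
`(x_j ^ m, y_j ^ n)` (divided by the first point) vanish. They are sums of signed `g`-th powers,
`g = gcd (m, n)`, and by an argument with Wronskians (as in a theorem of Newman and Slater) every such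
relation splits into relations between proportional powers. So for every homomorphism `λ` from `K* / k*` to the
real numbers the determinants still vanish if the entries `z` are replaced by the generalised power
series `z T ^ λ(z)`. This gives a curve over the field of generalised power series through the points
`(X_j T ^ λ(X_j), Y_j T ^ λ(Y_j))`, and the leading terms of its equation show that `λ(X_j) = λ(Y_j) = 0`
for many `j`. For a suitable `λ` this means that `X_j` and `Y_j` are constant. Then the equation of the curve and
finally all the points are constant.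
-/

set_option autoImplicit false

open MvPolynomial

namespace Pool.Agent.Results.MP_10e784_ag.FunctionFieldKummer

open Pool.Agent.H861.KF

/-- **Uniformity for Kummer coverings over `k(t₁, …, t_r)`.** -/
theorem result :
    (∀ (r : ℕ) (k K : Type) [Field k] [CharZero k] [Field K] [Algebra k K],
      Nonempty (K ≃ₐ[k] FractionRing (MvPolynomial (Fin r) k)) →
      ∀ D m n : ℕ, m ≠ 0 → n ≠ 0 → ((D + 1) * (D + 2) / 2).factorial ^ 2 ≤ Nat.gcd m n →
      ∀ F : MvPolynomial (Fin 2) K, Irreducible F → F.totalDegree ≤ D → 3 ≤ F.support.card →
        IsConstant k m n F ∨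
        ((values m n F).encard ≤ ((2 ^ ((D + 1) * (D + 2) / 2) + 2) * D ^ 2 : ℕ) ∧
          (points m n F).encard ≤ ((2 ^ ((D + 1) * (D + 2) / 2) + 2) * D ^ 2 *
            (Nat.card (rootsOfUnity m k) * Nat.card (rootsOfUnity n k)) : ℕ))) ∧
    (∀ (r : ℕ) (k K : Type) [Field k] [LinearOrder k] [IsStrictOrderedRing k] [Field K] [Algebra k K],
      Nonempty (K ≃ₐ[k] FractionRing (MvPolynomial (Fin r) k)) →
      ∀ D m n : ℕ, m ≠ 0 → n ≠ 0 → ((D + 1) * (D + 2) / 2).factorial ^ 2 ≤ Nat.gcd m n →
      ∀ F : MvPolynomial (Fin 2) K, Irreducible F → F.totalDegree ≤ D → 3 ≤ F.support.card →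
        IsConstant k m n F ∨
        (points m n F).encard ≤ (4 * ((2 ^ ((D + 1) * (D + 2) / 2) + 2) * D ^ 2) : ℕ)) := by
  have h1 : ∀ (r : ℕ) (k K : Type) [Field k] [CharZero k] [Field K] [Algebra k K],
      Nonempty (K ≃ₐ[k] FractionRing (MvPolynomial (Fin r) k)) →
      ∀ D m n : ℕ, m ≠ 0 → n ≠ 0 → ((D + 1) * (D + 2) / 2).factorial ^ 2 ≤ Nat.gcd m n →
      ∀ F : MvPolynomial (Fin 2) K, Irreducible F → F.totalDegree ≤ D → 3 ≤ F.support.card →
        IsConstant k m n F ∨
        ((values m n F).encard ≤ ((2 ^ ((D + 1) * (D + 2) / 2) + 2) * D ^ 2 : ℕ) ∧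
          (points m n F).encard ≤ ((2 ^ ((D + 1) * (D + 2) / 2) + 2) * D ^ 2 *
            (Nat.card (rootsOfUnity m k) * Nat.card (rootsOfUnity n k)) : ℕ)) := by
    rintro r k K _ _ _ _ ⟨e⟩ D m n hm hn hg F hF hD h3
    have hG : Good k K := good_equiv e.symm (good_frac k r)
    rcases hG.2 D m n F hm hn hg hF hD h3 with h | h
    · exact Or.inl h
    · exact Or.inr ⟨h, points_le hG.1 hm hn F h⟩
  refine ⟨h1, ?_⟩
  intro r k K _ _ _ _ _ hK D m n hm hn hg F hF hD h3
  rcases h1 r k K hK D m n hm hn hg F hF hD h3 with h | ⟨-, h⟩
  · exact Or.inl h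
  · refine Or.inr (h.trans ?_)
    have h2 : Nat.card (rootsOfUnity m k) * Nat.card (rootsOfUnity n k) ≤ 2 * 2 :=
      Nat.mul_le_mul (card_roots_le hm) (card_roots_le hn)
    have h4 : (2 ^ ((D + 1) * (D + 2) / 2) + 2) * D ^ 2 *
        (Nat.card (rootsOfUnity m k) * Nat.card (rootsOfUnity n k)) ≤
        4 * ((2 ^ ((D + 1) * (D + 2) / 2) + 2) * D ^ 2) := by
      calc _ ≤ (2 ^ ((D + 1) * (D + 2) / 2) + 2) * D ^ 2 * (2 * 2) := Nat.mul_le_mul_left _ h2
        _ = _ := by ring
    exact_mod_cast h4

end Pool.Agent.Results.MP_10e784_ag.FunctionFieldKummer
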