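import Mathlib
import Pool.Agent.H861.Mestre9

/-!
# Curves over `ℚ` with at least `8 g + 120` rational points, for infinitely many genera `g`

For a lower bound for `B_g` in the uniformity conjecture one needs curves with many rational points.
For all genera `g` one knows curves with `8 g + 16` rational points (Mestre, Brumer).

Let `E` be the elliptic curve `w ^ 2 = x (x + 15 ^ 4) (x + 8 ^ 4)`; it has `16` rational torsion points
and positive rank. For every `k ≥ 1` we obtain a polynomial `B` over `ℚ` of degree `16 k` without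
multiple roots, and without common roots with `x (x + 15 ^ 4) (x + 8 ^ 4)`, such that

* the hyperelliptic curve `y ^ 2 = B (x)` of genus `g = 8 k - 1` has at least `64 (k + 1) = 8 g + 72`
  rational points,
* the double cover `w ^ 2 = x (x + 15 ^ 4) (x + 8 ^ 4)`, `y ^ 2 = B (x)` of `E`, which is a curve of genus
  `g = 16 k + 1` by the formula of Riemann and Hurwitz (it is a cover of the `x`-line with group
  `(ℤ / 2) ^ 2`, with ramification index two above the `16 k + 4` points `B (x) = 0`,
  `x (x + 15 ^ 4) (x + 8 ^ 4) = 0` and `x = ∞`), has at least `128 (k + 1) = 8 g + 120` rational points.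

Proof. A function `h = N / D` of degree `16` in `x` satisfies `h (x (P + T)) = h (x (P))` for all points
`P` and all `16` torsion points `T` of `E (ℚ)` (it is constructed with the isogeny of degree `16`, and
the invariance is proved with the group law), and `D (x)` is a square for all points of `E (ℚ)`.
So `h` takes infinitely many values `u` for which all `16` solutions of `h (x) = u` are
`x`-coordinates of rational points of `E`. Choose `2 k + 2` of these `u`, and write the
product of the `X - u` as `Q ^ 2 - R` with `deg R ≤ k` (Mestre). Then `B = D ^ k R (N / D)` has degree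
`16 k`, and `B (x) = D (x) ^ k Q (u) ^ 2` is a square at the `16 (2 k + 2)` points above the `u`. The
main point is that the last `u` can be chosen such that `B` has no multiple roots.
-/

set_option autoImplicit false

namespace Pool.Agent.Results.MP_10e784_ag.ManyPointsDoubleCovers

open Polynomial Pool.Agent.H861.Mestre

/-- counting -/
lemma count_two {X : Finset ℚ} {g : ℚ → ℚ} (hg : ∀ x ∈ X, ∃ y : ℚ, y ≠ 0 ∧ y ^ 2 = g x) :
    ((2 * X.card : ℕ) : ℕ∞) ≤ Set.encard {p : ℚ × ℚ | p.2 ^ 2 = g p.1} := by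
  classical
  choose! y hy0 hy using hg
  let F : ℚ × Bool → ℚ × ℚ := fun q => (q.1, if q.2 then y q.1 else - y q.1)
  have hF : Set.InjOn F ((X ×ˢ (Finset.univ : Finset Bool) : Finset (ℚ × Bool)) : Set (ℚ × Bool)) := by
    rintro ⟨x, b⟩ hx ⟨x', b'⟩ hx' h
    rw [Finset.mem_coe, Finset.mem_product] at hx hx'
    rw [Prod.mk.injEq] at h
    obtain ⟨h1, h2⟩ := h
    simp only at h1
    subst h1
    have h0 := hy0 x hx.1
    congr 1
    rcases b with _ | _ <;> rcases b' with _ | _ <;> simp only [if_true, if_false, Bool.false_eq_true, reduceCtorEq] at h2 ⊢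
    · exact h0 (by linarith)
    · exact h0 (by linarith)
  calc ((2 * X.card : ℕ) : ℕ∞) = ((Finset.image F (X ×ˢ (Finset.univ : Finset Bool))).card : ℕ∞) := by
        rw [Finset.card_image_of_injOn hF, Finset.card_product, Finset.card_univ, Fintype.card_bool,
          mul_comm]
    _ = Set.encard ((Finset.image F (X ×ˢ (Finset.univ : Finset Bool)) : Finset (ℚ × ℚ)) : Set (ℚ × ℚ)) :=
        (Set.encard_coe_eq_coe_finsetCard _).symm
    _ ≤ _ := by
        apply Set.encard_le_encard
        intro p hp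
        rw [Finset.mem_coe, Finset.mem_image] at hp
        obtain ⟨⟨x, b⟩, hx, rfl⟩ := hp
        rw [Finset.mem_product] at hx
        rw [Set.mem_ofPred_eq]
        simp only [F]
        split_ifs
        · exact hy x hx.1
        · rw [neg_sq]; exact hy x hx.1

/-- counting -/
lemma count_four {X : Finset ℚ} {f g : ℚ → ℚ} (hf : ∀ x ∈ X, ∃ y : ℚ, y ≠ 0 ∧ y ^ 2 = f x)
    (hg : ∀ x ∈ X, ∃ y : ℚ, y ≠ 0 ∧ y ^ 2 = g x) :
    ((4 * X.card : ℕ) : ℕ∞) ≤ Set.encard {p : ℚ × ℚ × ℚ | p.2.1 ^ 2 = f p.1 ∧ p.2.2 ^ 2 = g p.1} := by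
  classical
  choose! w hw0 hw using hf
  choose! y hy0 hy using hg
  let F : ℚ × Bool × Bool → ℚ × ℚ × ℚ := fun q =>
    (q.1, if q.2.1 then w q.1 else - w q.1, if q.2.2 then y q.1 else - y q.1)
  have hF : Set.InjOn F ((X ×ˢ (Finset.univ : Finset (Bool × Bool)) : Finset (ℚ × Bool × Bool)) :
      Set (ℚ × Bool × Bool)) := by
    rintro ⟨x, b, c⟩ hx ⟨x', b', c'⟩ hx' h
    rw [Finset.mem_coe, Finset.mem_product] at hx hx'
    rw [Prod.mk.injEq, Prod.mk.injEq] at h
    obtain ⟨h1, h2, h3⟩ := h
    simp only at h1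
    subst h1
    have h0 := hy0 x hx.1
    have h0' := hw0 x hx.1
    have hb : b = b' := by
      rcases b with _ | _ <;> rcases b' with _ | _ <;>
        simp only [if_true, if_false, Bool.false_eq_true, reduceCtorEq] at h2 ⊢
      · exact h0' (by linarith)
      · exact h0' (by linarith)
    have hc : c = c' := by
      rcases c with _ | _ <;> rcases c' with _ | _ <;>
        simp only [if_true, if_false, Bool.false_eq_true, reduceCtorEq] at h3 ⊢
      · exact h0 (by linarith)
      · exact h0 (by linarith)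
    rw [hb, hc]
  calc ((4 * X.card : ℕ) : ℕ∞)
      = ((Finset.image F (X ×ˢ (Finset.univ : Finset (Bool × Bool)))).card : ℕ∞) := by
        rw [Finset.card_image_of_injOn hF, Finset.card_product, Finset.card_univ, Fintype.card_prod,
          Fintype.card_bool, mul_comm]
    _ = Set.encard ((Finset.image F (X ×ˢ (Finset.univ : Finset (Bool × Bool))) : Finset (ℚ × ℚ × ℚ)) :
          Set (ℚ × ℚ × ℚ)) := (Set.encard_coe_eq_coe_finsetCard _).symm
    _ ≤ _ := by
        apply Set.encard_le_encard
        intro p hp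
        rw [Finset.mem_coe, Finset.mem_image] at hp
        obtain ⟨⟨x, b, c⟩, hx, rfl⟩ := hp
        rw [Finset.mem_product] at hx
        rw [Set.mem_ofPred_eq]
        simp only [F]
        constructor
        · split_ifs
          · exact hw x hx.1
          · rw [neg_sq]; exact hw x hx.1
        · split_ifs
          · exact hy x hx.1
          · rw [neg_sq]; exact hy x hx.1

/-- **Many rational points.** For every `k ≥ 1` there is a polynomial `B` over `ℚ` of degree `16 k`,
squarefree and coprime to `x (x + 50625) (x + 4096)`, such that the hyperelliptic curve `y ^ 2 = B (x)`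
(of genus `g = 8 k - 1`) has at least `64 (k + 1) = 8 g + 72` affine rational points, and the curve
`w ^ 2 = x (x + 50625) (x + 4096)`, `y ^ 2 = B (x)` (of genus `g = 16 k + 1`) has at least
`128 (k + 1) = 8 g + 120` affine rational points. -/
theorem result (k : ℕ) (hk : 1 ≤ k) :
    ∃ B : ℚ[X], B.natDegree = 16 * k ∧ Squarefree B ∧
      IsCoprime B (X * (X + C 50625) * (X + C 4096)) ∧
      ((64 * (k + 1) : ℕ) : ℕ∞) ≤ Set.encard {p : ℚ × ℚ | p.2 ^ 2 = B.eval p.1} ∧
      ((128 * (k + 1) : ℕ) : ℕ∞) ≤ Set.encard {p : ℚ × ℚ × ℚ |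
        p.2.1 ^ 2 = p.1 * (p.1 + 50625) * (p.1 + 4096) ∧ p.2.2 ^ 2 = B.eval p.1} := by
  classical
  obtain ⟨V, Q, R, hVU, hV, hQ, hR0, hRd, hd, hsep, hcop⟩ := general (L := AlgebraicClosure ℚ) NN DD
    coprime (by rw [NN_natDegree, DD_natDegree]; norm_num) U U_infinite k hk
  have hfib : ∀ u ∈ V, ∃ X : Finset ℚ, X.card = 16 ∧ ∀ x ∈ X,
      ∃ y z : ℚ, y ≠ 0 ∧ y ^ 2 = f.eval x ∧ DD.eval x = z ^ 2 ∧ DD.eval x ≠ 0 ∧
        NN.eval x = u * DD.eval x := by
    intro u hu
    obtain ⟨P, hP, rfl⟩ := hVU hu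
    exact fibre hP
  choose! X hX hXx using hfib
  have hdisj : ∀ u ∈ V, ∀ v ∈ V, u ≠ v → Disjoint (X u) (X v) := by
    intro u hu v hv huv
    rw [Finset.disjoint_left]
    intro x hxu hxv
    obtain ⟨_, _, _, _, _, hD, h1⟩ := hXx u hu x hxu
    obtain ⟨_, _, _, _, _, _, h2⟩ := hXx v hv x hxv
    apply huv
    rw [h1] at h2
    exact mul_right_cancel₀ hD h2
  have hcard : (V.biUnion X).card = 32 * (k + 1) := by
    rw [Finset.card_biUnion hdisj, Finset.sum_congr rfl hX, Finset.sum_const, hV, smul_eq_mul]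
    ring
  have hw : ∀ x ∈ V.biUnion X, ∃ y : ℚ, y ≠ 0 ∧ y ^ 2 = x * (x + 50625) * (x + 4096) := by
    intro x hx
    rw [Finset.mem_biUnion] at hx
    obtain ⟨u, hu, hx⟩ := hx
    obtain ⟨y, _, hy, hyf, _⟩ := hXx u hu x hx
    refine ⟨y, hy, ?_⟩
    rw [hyf, f_eval]
    ring
  have hB : ∀ x ∈ V.biUnion X, ∃ y : ℚ, y ≠ 0 ∧ y ^ 2 = (hc R NN DD k).eval x := by
    intro x hx
    rw [Finset.mem_biUnion] at hx
    obtain ⟨u, hu, hx⟩ := hx
    obtain ⟨_, z, _, _, hz, hD, hN⟩ := hXx u hu x hx
    have h1 := aeval_hc R NN DD k hRd.le x u (by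
      rw [coe_aeval_eq_eval]; exact hN)
    rw [coe_aeval_eq_eval, coe_aeval_eq_eval] at h1
    refine ⟨z ^ k * Q.eval u, ?_, ?_⟩
    · apply mul_ne_zero
      · apply pow_ne_zero
        rintro rfl
        apply hD
        rw [hz]; norm_num
      · intro h0
        apply hR0 u hu
        rw [hQ u hu, h0]
        norm_num
    · rw [h1, hQ u hu, hz]
      ring
  refine ⟨hc R NN DD k, ?_, ?_, ?_, ?_, ?_⟩
  · rw [hd, NN_natDegree]
  · exact Polynomial.Separable.squarefree hsep
  · have : (f : ℚ[X]) ∣ DD := ⟨C 4 * (B0 * A) ^ 2, by unfold DD; ring⟩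
    exact hcop.of_isCoprime_of_dvd_right this
  · have := count_two (g := fun x => (hc R NN DD k).eval x) hB
    rw [hcard] at this
    rw [show 64 * (k + 1) = 2 * (32 * (k + 1)) by ring]
    exact this
  · have := count_four (f := fun x => x * (x + 50625) * (x + 4096))
      (g := fun x => (hc R NN DD k).eval x) hw hB
    rw [hcard] at this
    rw [show 128 * (k + 1) = 4 * (32 * (k + 1)) by ring]
    exact this

end Pool.Agent.Results.MP_10e784_ag.ManyPointsDoubleCovers
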